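import Pool.Agent.W734.TWB.Stms

/-!
# The errors are small (part ERR of the project TWB, S15753)
-/

set_option autoImplicit false

noncomputable section

namespace Pool.Agent.W665.TWB

open MeasureTheory Set Filter Metric
open Pool.Agent.W734.TWB

/-- the profile of the distinguished particle -/
def hp (u : E3 → ℂ) (z : E3) : ℝ := g3 u z + ‖u z‖ ^ 2

lemma hp_cont {u : E3 → ℂ} (hu : Orb u) : Continuous (hp u) := by
  have h1 : Continuous (fderiv ℝ u) := hu.diff.continuous_fderiv (by simp)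
  unfold hp g3
  have h2 : Continuous u := hu.diff.continuous
  fun_prop

lemma hp_nonneg (u : E3 → ℂ) (z : E3) : 0 ≤ hp u z := by
  unfold hp g3
  positivity

lemma hp_supp {u : E3 → ℂ} (hu : Orb u) : HasCompactSupport (hp u) := by
  have hc := hu.supp
  refine HasCompactSupport.intro hc ?_
  intro x hx
  have h1 : u x = 0 := image_eq_zero_of_notMem_tsupport hx
  have h2 : fderiv ℝ u x = 0 := by
    have h3 := support_fderiv_subset ℝ (f := u)
    by_contra hne
    exact hx (h3 (by simpa [Function.mem_support] using hne))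
  simp [hp, g3, h1, h2]

lemma hp_NB {u : E3 → ℂ} (hu : Orb u) : NB (hp u) := by
  refine ⟨(hp_cont hu).measurable, hp_nonneg u, ?_, hp_supp hu⟩
  obtain ⟨C, hC⟩ := (hp_supp hu).exists_bound_of_continuous (hp_cont hu)
  exact ⟨C, fun x => le_trans (le_abs_self _) (hC x)⟩

lemma wh_eq {N : ℕ} (h : E3 → ℝ) (u : E3 → ℂ) (m : Fin N) (x : Cfg N) :
    wh h u m x = ∏ i, (if i = m then h else fun z => ‖u z‖ ^ 2) (x i) := by
  unfold wh
  rw [← Finset.mul_prod_erase Finset.univ _ (Finset.mem_univ m)]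
  congr 1
  · simp
  · refine Finset.prod_congr rfl ?_
    intro i hi
    have := Finset.ne_of_mem_erase hi
    simp [this]

lemma wh_int {N : ℕ} {u : E3 → ℂ} (hu : Orb u) (m : Fin N) :
    Integrable (fun x : Cfg N => wh (hp u) u m x) := by
  have h1 : Integrable (hp u) := (hp_cont hu).integrable_of_hasCompactSupport (hp_supp hu)
  have h2 : Integrable (fun z => ‖u z‖ ^ 2) := by
    have hc : Continuous (fun z => ‖u z‖ ^ 2) := by
      have := hu.diff.continuous
      fun_prop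
    refine hc.integrable_of_hasCompactSupport ?_
    refine HasCompactSupport.intro hu.supp ?_
    intro x hx
    have h1 : u x = 0 := image_eq_zero_of_notMem_tsupport hx
    simp [h1]
  have h3 : Integrable (fun x : Cfg N =>
      ∏ i, (if i = m then hp u else fun z => ‖u z‖ ^ 2) (x i)) := by
    refine MeasureTheory.Integrable.fintype_prod (f := fun i =>
      (if i = m then hp u else fun z => ‖u z‖ ^ 2)) ?_
    intro i
    by_cases hi : i = m
    · simpa [hi] using h1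
    · simpa [hi] using h2
  refine h3.congr (Eventually.of_forall ?_)
  intro x
  exact (wh_eq (hp u) u m x).symm

lemma wh_nonneg {N : ℕ} (u : E3 → ℂ) (m : Fin N) (x : Cfg N) : 0 ≤ wh (hp u) u m x := by
  unfold wh
  have := hp_nonneg u (x m)
  positivity

lemma nr_meas {N : ℕ} (r : ℝ) (m a : Fin N) : Measurable (fun x : Cfg N => nr r m a x) := by
  unfold nr
  refine Measurable.ite ?_ measurable_const measurable_const
  exact measurableSet_le (by fun_prop) measurable_const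

lemma nr_bd {N : ℕ} (r : ℝ) (m a : Fin N) (x : Cfg N) : 0 ≤ nr r m a x ∧ nr r m a x ≤ 1 := by
  unfold nr
  split_ifs <;> norm_num

lemma summand_int (hJ : S_JAB) {u : E3 → ℂ} (hu : Orb u) {R1 R2 : ℝ} {f1 : E3 → ℝ}
    {f2 : E3 × E3 → ℝ} (h1 : PairF R1 f1) (h2 : TripF R2 f2) {N q : ℕ} (m : Fin N)
    (r : Fin q → ℝ) (a : Fin q → Fin N) (B : Finset (Fin N)) :
    Integrable (fun x : Cfg N => wh (hp u) u m x *
      ((∏ l, nr (r l) m (a l) x) * (JA f1 f2 B x) ^ 2)) := by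
  have hJ' := hJ R1 R2 f1 f2 h1 h2 N
  refine (wh_int hu m).mul_bdd (c := 1) ?_ ?_
  · have hm1 : Measurable (fun x : Cfg N => ∏ l, nr (r l) m (a l) x) :=
      Finset.measurable_prod _ (fun l _ => nr_meas _ _ _)
    have hm2 : Measurable (fun x : Cfg N => (JA f1 f2 B x) ^ 2) :=
      ((hJ'.1 B).continuous.measurable).pow_const 2
    exact (hm1.mul hm2).aestronglyMeasurable
  · refine Eventually.of_forall ?_
    intro x
    have hp1 : 0 ≤ ∏ l, nr (r l) m (a l) x := Finset.prod_nonneg (fun l _ => (nr_bd _ _ _ _).1)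
    have hp2 : ∏ l, nr (r l) m (a l) x ≤ 1 :=
      Finset.prod_le_one (fun l _ => (nr_bd _ _ _ _).1) (fun l _ => (nr_bd _ _ _ _).2)
    have hj := hJ'.2.1 B x
    have hj2 : (JA f1 f2 B x) ^ 2 ≤ 1 := by nlinarith [hj.1, hj.2]
    rw [Real.norm_eq_abs, abs_of_nonneg (by positivity)]
    calc (∏ l, nr (r l) m (a l) x) * (JA f1 f2 B x) ^ 2 ≤ 1 * 1 := by
          apply mul_le_mul hp2 hj2 (by positivity) (by norm_num)
      _ = 1 := by norm_num

lemma ZA_nonneg {N : ℕ} (f1 : E3 → ℝ) (f2 : E3 × E3 → ℝ) (u : E3 → ℂ) (A : Finset (Fin N)) :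
    0 ≤ ZA f1 f2 u A := by
  unfold ZA
  refine integral_nonneg ?_
  intro x
  have : 0 ≤ wu u x := by unfold wu; positivity
  positivity

lemma ZA_sdiff {N : ℕ} {f1 : E3 → ℝ} {f2 : E3 × E3 → ℝ} {u : E3 → ℂ} {C : ℝ} (hC : 0 < C)
    (hN : 1 ≤ N)
    (hz : ∀ (A : Finset (Fin N)) (i : Fin N), i ∈ A →
      ZA f1 f2 u (A.erase i) ≤ (1 + C / N) * ZA f1 f2 u A) (T : Finset (Fin N)) :
    ZA f1 f2 u (Finset.univ \ T) ≤
      (1 + C) ^ T.card * ZA f1 f2 u (Finset.univ : Finset (Fin N)) := by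
  classical
  induction T using Finset.induction_on with
  | empty => simp
  | insert i T hi ih =>
    have h1 : (Finset.univ \ insert i T : Finset (Fin N)) = (Finset.univ \ T).erase i := by
      ext j
      simp [Finset.mem_erase, not_or]
    have h2 := hz (Finset.univ \ T) i (by simp [hi])
    rw [h1, Finset.card_insert_of_notMem hi, pow_succ']
    have hCN : C / N ≤ C := by
      apply div_le_self hC.le
      exact_mod_cast hN
    have hnn := ZA_nonneg f1 f2 u (Finset.univ \ T)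
    calc ZA f1 f2 u ((Finset.univ \ T).erase i) ≤ (1 + C / N) * ZA f1 f2 u (Finset.univ \ T) := h2
      _ ≤ (1 + C) * ZA f1 f2 u (Finset.univ \ T) := by
          apply mul_le_mul_of_nonneg_right _ hnn
          linarith
      _ ≤ (1 + C) * ((1 + C) ^ T.card * ZA f1 f2 u Finset.univ) := by
          apply mul_le_mul_of_nonneg_left ih
          linarith
      _ = (1 + C) * (1 + C) ^ T.card * ZA f1 f2 u Finset.univ := by ring

lemma one_term (hJ : S_JAB) (hCL : S_CL) (hZ : S_Z) (u : E3 → ℂ) (hu : Orb u) (R1 R2 : ℝ)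
    (f1 : E3 → ℝ) (f2 : E3 × E3 → ℝ) (hR1 : 0 < R1) (hR2 : 0 < R2) (h1 : PairF R1 f1)
    (h2 : TripF R2 f2) (R : ℝ) (hR : 0 < R) (q : ℕ) (t : Fin q → Bool) :
    ∃ K : ℝ, 0 ≤ K ∧ ∀ᶠ N : ℕ in atTop,
      (∀ m : Fin N, Integrable (fun x : Cfg N => wh (hp u) u m x * errT f1 f2 R q t m x)) ∧
      (∑ m : Fin N, ∫ x : Cfg N, wh (hp u) u m x * errT f1 f2 R q t m x) ≤
        K * ((N : ℝ) ^ (q + 1) * ∏ l, (if t l then (1 / (N : ℝ)) ^ 3
          else (1 / Real.sqrt N) ^ 3)) * ZA f1 f2 u (Finset.univ : Finset (Fin N)) := by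
  classical
  obtain ⟨C0, hC0, hcl⟩ := hCL u hu
  obtain ⟨Cz, hCz, hz⟩ := hZ u hu R1 R2 f1 f2 hR1 hR2 h1 h2
  have hI : 0 ≤ ∫ z, hp u z := integral_nonneg (hp_nonneg u)
  refine ⟨(∫ z, hp u z) * (C0 * R ^ 3) ^ q * (1 + Cz) ^ (q + 1), by positivity, ?_⟩
  filter_upwards [hz, eventually_ge_atTop 1] with N hzN hN
  have hint : ∀ (m : Fin N) (a : Fin q → Fin N), Integrable (fun x : Cfg N => wh (hp u) u m x *
      ((∏ l, nr (rad R N (t l)) m (a l) x)
        * (JA f1 f2 (Finset.univ \ insert m (Finset.univ.image a)) x) ^ 2)) := by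
    intro m a
    exact summand_int hJ hu h1 h2 m (fun l => rad R N (t l)) a _
  have hfun : ∀ m : Fin N, (fun x : Cfg N => wh (hp u) u m x * errT f1 f2 R q t m x) =
      fun x : Cfg N => ∑ a ∈ (Finset.univ : Finset (Fin q → Fin N)).filter
      (fun a => Function.Injective a ∧ ∀ l, a l ≠ m), wh (hp u) u m x *
      ((∏ l, nr (rad R N (t l)) m (a l) x)
        * (JA f1 f2 (Finset.univ \ insert m (Finset.univ.image a)) x) ^ 2) := by
    intro m
    funext x
    unfold errT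
    rw [Finset.mul_sum]
  have hNpos : (0 : ℝ) < N := by exact_mod_cast hN
  have hrad : ∀ l, 0 ≤ rad R N (t l) := by
    intro l
    unfold rad
    split_ifs <;> positivity
  set Z := ZA f1 f2 u (Finset.univ : Finset (Fin N)) with hZdef
  have hZnn : 0 ≤ Z := ZA_nonneg f1 f2 u _
  set P : ℝ := ∏ l, (if t l then (1 / (N : ℝ)) ^ 3 else (1 / Real.sqrt N) ^ 3) with hP
  have hPnn : 0 ≤ P := by
    refine Finset.prod_nonneg ?_
    intro l _
    split_ifs <;> positivity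
  have hradP : ∏ l, (C0 * rad R N (t l) ^ 3) = (C0 * R ^ 3) ^ q * P := by
    rw [hP]
    have : ∀ l : Fin q, C0 * rad R N (t l) ^ 3 =
        (C0 * R ^ 3) * (if t l then (1 / (N : ℝ)) ^ 3 else (1 / Real.sqrt N) ^ 3) := by
      intro l
      unfold rad
      by_cases hl : t l = true
      · simp only [hl, if_true]
        ring
      · simp only [hl]
        simp only [Bool.false_eq_true, if_false]
        ring
    rw [Finset.prod_congr rfl (fun l _ => this l), Finset.prod_mul_distrib]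
    simp
  have hone : ∀ (m : Fin N) (a : Fin q → Fin N), Function.Injective a → (∀ l, a l ≠ m) →
      ∫ x : Cfg N, wh (hp u) u m x * ((∏ l, nr (rad R N (t l)) m (a l) x)
        * (JA f1 f2 (Finset.univ \ insert m (Finset.univ.image a)) x) ^ 2) ≤
      (∫ z, hp u z) * (C0 * R ^ 3) ^ q * (1 + Cz) ^ (q + 1) * P * Z := by
    intro m a ha ham
    have hex : ∀ l, Function.extend a (fun l => rad R N (t l)) (fun _ => (0 : ℝ)) (a l)
        = rad R N (t l) := by
      intro l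
      exact ha.extend_apply _ _ l
    have hc := hcl R1 R2 f1 f2 h1 h2 (hp u) (hp_NB hu) N m (Finset.univ.image a)
      (Finset.univ \ insert m (Finset.univ.image a)) (by simpa using ham) (by simp)
      (by
        rw [Finset.disjoint_left]
        intro i hi hi2
        simp only [Finset.mem_sdiff, Finset.mem_univ, true_and, Finset.mem_insert, not_or] at hi2
        exact hi2.2 hi)
      (Function.extend a (fun l => rad R N (t l)) (fun _ => (0 : ℝ)))
      (by
        intro i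
        by_cases hi : ∃ l, a l = i
        · obtain ⟨l, rfl⟩ := hi
          rw [hex]
          exact hrad l
        · rw [Function.extend_apply' _ _ _ hi])
    have e1 : ∀ x : Cfg N, (∏ i ∈ Finset.univ.image a,
        nr (Function.extend a (fun l => rad R N (t l)) (fun _ => (0 : ℝ)) i) m i x) =
        ∏ l, nr (rad R N (t l)) m (a l) x := by
      intro x
      rw [Finset.prod_image (fun i _ j _ hij => ha hij)]
      refine Finset.prod_congr rfl ?_
      intro l _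
      rw [hex]
    have e2 : (∏ i ∈ Finset.univ.image a,
        C0 * (Function.extend a (fun l => rad R N (t l)) (fun _ => (0 : ℝ)) i) ^ 3) =
        (C0 * R ^ 3) ^ q * P := by
      rw [Finset.prod_image (fun i _ j _ hij => ha hij), ← hradP]
      refine Finset.prod_congr rfl ?_
      intro l _
      rw [hex]
    simp only [e1] at hc
    rw [e2] at hc
    refine hc.trans ?_
    have hcard : (insert m (Finset.univ.image a)).card ≤ q + 1 := by
      refine (Finset.card_insert_le _ _).trans ?_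
      have : (Finset.univ.image a).card ≤ q := by
        refine Finset.card_image_le.trans ?_
        simp
      omega
    have hZA := ZA_sdiff (f1 := f1) (f2 := f2) (u := u) hCz hN hzN
      (insert m (Finset.univ.image a))
    have hpow : (1 + Cz) ^ (insert m (Finset.univ.image a)).card ≤ (1 + Cz) ^ (q + 1) :=
      pow_le_pow_right₀ (by linarith) hcard
    have hZA2 : ZA f1 f2 u (Finset.univ \ insert m (Finset.univ.image a)) ≤
        (1 + Cz) ^ (q + 1) * Z := hZA.trans (mul_le_mul_of_nonneg_right hpow hZnn)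
    calc (∫ z, hp u z) * ((C0 * R ^ 3) ^ q * P)
          * ZA f1 f2 u (Finset.univ \ insert m (Finset.univ.image a))
        ≤ (∫ z, hp u z) * ((C0 * R ^ 3) ^ q * P) * ((1 + Cz) ^ (q + 1) * Z) := by
          apply mul_le_mul_of_nonneg_left hZA2
          positivity
      _ = (∫ z, hp u z) * (C0 * R ^ 3) ^ q * (1 + Cz) ^ (q + 1) * P * Z := by ring
  refine ⟨?_, ?_⟩
  · intro m
    rw [hfun m]
    exact integrable_finsetSum _ (fun a _ => hint m a)
  · have hm : ∀ m : Fin N, ∫ x : Cfg N, wh (hp u) u m x * errT f1 f2 R q t m x ≤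
        (N : ℝ) ^ q * ((∫ z, hp u z) * (C0 * R ^ 3) ^ q * (1 + Cz) ^ (q + 1) * P * Z) := by
      intro m
      rw [hfun m, integral_finsetSum _ (fun a _ => hint m a)]
      refine (Finset.sum_le_card_nsmul _ _
        ((∫ z, hp u z) * (C0 * R ^ 3) ^ q * (1 + Cz) ^ (q + 1) * P * Z) ?_).trans ?_
      · intro a ha
        have := (Finset.mem_filter.mp ha).2
        exact hone m a this.1 this.2
      · rw [nsmul_eq_mul]
        apply mul_le_mul_of_nonneg_right _ (by positivity)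
        have : ((Finset.univ : Finset (Fin q → Fin N)).filter
            (fun a => Function.Injective a ∧ ∀ l, a l ≠ m)).card ≤ N ^ q := by
          refine (Finset.card_filter_le _ _).trans ?_
          simp
        exact_mod_cast this
    calc (∑ m : Fin N, ∫ x : Cfg N, wh (hp u) u m x * errT f1 f2 R q t m x) ≤
          ∑ m : Fin N, (N : ℝ) ^ q * ((∫ z, hp u z) * (C0 * R ^ 3) ^ q
            * (1 + Cz) ^ (q + 1) * P * Z) := Finset.sum_le_sum (fun m _ => hm m)
      _ = (∫ z, hp u z) * (C0 * R ^ 3) ^ q * (1 + Cz) ^ (q + 1) * ((N : ℝ) ^ (q + 1) * P) * Z := by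
          rw [Finset.sum_const, Finset.card_univ, Fintype.card_fin, nsmul_eq_mul]
          ring

lemma ar1 (K s Z : ℝ) (hs : 0 < s) :
    s ^ 2 * (K * ((s ^ 2) ^ (1 + 1) * (1 / (s ^ 2)) ^ 3) * Z) = K * 1 * Z := by
  field_simp
  ring

lemma ar2 (K s Z : ℝ) (hs : 0 < s) :
    s * (K * ((s ^ 2) ^ (2 + 1) * ((1 / s) ^ 3 * (1 / s) ^ 3)) * Z) = K * s * Z := by
  field_simp
  ring

lemma ar3 (K s Z : ℝ) (hs : 0 < s) :
    (s ^ 2) ^ 2 * (K * ((s ^ 2) ^ (2 + 1) * ((1 / (s ^ 2)) ^ 3 * (1 / (s ^ 2)) ^ 3)) * Z)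
      = K * (1 / s * (1 / s)) * Z := by
  field_simp
  ring

lemma ar4 (K s Z : ℝ) (hs : 0 < s) :
    s ^ 2 * s * (K * ((s ^ 2) ^ (2 + 1) * ((1 / (s ^ 2)) ^ 3 * (1 / s) ^ 3)) * Z)
      = K * 1 * Z := by
  field_simp
  ring

lemma ar5 (K s Z : ℝ) (hs : 0 < s) :
    s ^ 2 * s * (K * ((s ^ 2) ^ (3 + 1) * ((1 / (s ^ 2)) ^ 3 * ((1 / s) ^ 3 * (1 / s) ^ 3))) * Z)
      = K * (1 / s) * Z := by
  field_simp
  ring

lemma ar6 (K s Z : ℝ) (hs : 0 < s) :
    s ^ 2 * (K * ((s ^ 2) ^ (3 + 1) * ((1 / s) ^ 3 * ((1 / s) ^ 3 * (1 / s) ^ 3))) * Z)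
      = K * s * Z := by
  field_simp
  ring

lemma ar7 (K s Z : ℝ) (hs : 0 < s) :
    s ^ 2 * (K * ((s ^ 2) ^ (4 + 1) * ((1 / s) ^ 3 * ((1 / s) ^ 3
      * ((1 / s) ^ 3 * (1 / s) ^ 3)))) * Z) = K * 1 * Z := by
  field_simp
  ring

lemma ar8 {s : ℝ} (hs : 1 ≤ s) : 1 / s ≤ s ∧ 1 / s * (1 / s) ≤ s := by
  have hs0 : 0 < s := by linarith
  have h1 : 1 / s ≤ 1 := by
    rw [div_le_one hs0]
    exact hs
  have h0 : 0 ≤ 1 / s := by positivity
  refine ⟨by linarith, ?_⟩
  nlinarith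

/-- the errors are small -/
theorem err : S_JAB → S_CL → S_Z → S_ERR := by
  intro hJ hCL hZ u hu R1 R2 f1 f2 hR1 hR2 h1 h2 R hR
  obtain ⟨K1, hK1, e1⟩ := one_term hJ hCL hZ u hu R1 R2 f1 f2 hR1 hR2 h1 h2 R hR 1 ![true]
  obtain ⟨K2, hK2, e2⟩ := one_term hJ hCL hZ u hu R1 R2 f1 f2 hR1 hR2 h1 h2 R hR 2
    ![false, false]
  obtain ⟨K3, hK3, e3⟩ := one_term hJ hCL hZ u hu R1 R2 f1 f2 hR1 hR2 h1 h2 R hR 2 ![true, true]
  obtain ⟨K4, hK4, e4⟩ := one_term hJ hCL hZ u hu R1 R2 f1 f2 hR1 hR2 h1 h2 R hR 2 ![true, false]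
  obtain ⟨K5, hK5, e5⟩ := one_term hJ hCL hZ u hu R1 R2 f1 f2 hR1 hR2 h1 h2 R hR 3
    ![true, false, false]
  obtain ⟨K6, hK6, e6⟩ := one_term hJ hCL hZ u hu R1 R2 f1 f2 hR1 hR2 h1 h2 R hR 3
    ![false, false, false]
  obtain ⟨K7, hK7, e7⟩ := one_term hJ hCL hZ u hu R1 R2 f1 f2 hR1 hR2 h1 h2 R hR 4
    ![false, false, false, false]
  refine ⟨K1 + K2 + K3 + K4 + K5 + K6 + K7 + 1, by positivity, ?_⟩
  filter_upwards [e1, e2, e3, e4, e5, e6, e7, eventually_ge_atTop 1] with N e1 e2 e3 e4 e5 e6 e7 hN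
  have hZnn : 0 ≤ ZA f1 f2 u (Finset.univ : Finset (Fin N)) := ZA_nonneg f1 f2 u _
  set Z := ZA f1 f2 u (Finset.univ : Finset (Fin N)) with hZdef
  obtain ⟨i1, b1⟩ := e1
  obtain ⟨i2, b2⟩ := e2
  obtain ⟨i3, b3⟩ := e3
  obtain ⟨i4, b4⟩ := e4
  obtain ⟨i5, b5⟩ := e5
  obtain ⟨i6, b6⟩ := e6
  obtain ⟨i7, b7⟩ := e7
  have hsq : Real.sqrt N ^ 2 = N := Real.sq_sqrt (Nat.cast_nonneg N)
  have hs1 : 1 ≤ Real.sqrt N := by
    rw [Real.one_le_sqrt]
    exact_mod_cast hN
  set s := Real.sqrt N with hs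
  have hs0 : 0 < s := by linarith
  have key : ∀ m : Fin N, ∫ x : Cfg N, wh (fun z => g3 u z + ‖u z‖ ^ 2) u m x
      * errA f1 f2 R m x =
      (N : ℝ) * (∫ x : Cfg N, wh (hp u) u m x * errT f1 f2 R 1 ![true] m x)
      + s * (∫ x : Cfg N, wh (hp u) u m x * errT f1 f2 R 2 ![false, false] m x)
      + (N : ℝ) ^ 2 * (∫ x : Cfg N, wh (hp u) u m x * errT f1 f2 R 2 ![true, true] m x)
      + (N : ℝ) * s * (∫ x : Cfg N, wh (hp u) u m x * errT f1 f2 R 2 ![true, false] m x)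
      + (N : ℝ) * s * (∫ x : Cfg N, wh (hp u) u m x * errT f1 f2 R 3 ![true, false, false] m x)
      + (N : ℝ) * (∫ x : Cfg N, wh (hp u) u m x * errT f1 f2 R 3 ![false, false, false] m x)
      + (N : ℝ) * (∫ x : Cfg N, wh (hp u) u m x
          * errT f1 f2 R 4 ![false, false, false, false] m x) := by
    intro m
    have hf : (fun x : Cfg N => wh (fun z => g3 u z + ‖u z‖ ^ 2) u m x * errA f1 f2 R m x) =
        fun x => (N : ℝ) * (wh (hp u) u m x * errT f1 f2 R 1 ![true] m x)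
      + s * (wh (hp u) u m x * errT f1 f2 R 2 ![false, false] m x)
      + (N : ℝ) ^ 2 * (wh (hp u) u m x * errT f1 f2 R 2 ![true, true] m x)
      + (N : ℝ) * s * (wh (hp u) u m x * errT f1 f2 R 2 ![true, false] m x)
      + (N : ℝ) * s * (wh (hp u) u m x * errT f1 f2 R 3 ![true, false, false] m x)
      + (N : ℝ) * (wh (hp u) u m x * errT f1 f2 R 3 ![false, false, false] m x)
      + (N : ℝ) * (wh (hp u) u m x * errT f1 f2 R 4 ![false, false, false, false] m x) := by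
      funext x
      have : (fun z => g3 u z + ‖u z‖ ^ 2) = hp u := rfl
      rw [this]
      unfold errA
      ring
    rw [hf]
    have j1 := (i1 m).const_mul (N : ℝ)
    have j2 := (i2 m).const_mul s
    have j3 := (i3 m).const_mul ((N : ℝ) ^ 2)
    have j4 := (i4 m).const_mul ((N : ℝ) * s)
    have j5 := (i5 m).const_mul ((N : ℝ) * s)
    have j6 := (i6 m).const_mul (N : ℝ)
    have j7 := (i7 m).const_mul (N : ℝ)
    have l7 := integral_add (((((j1.add j2).add j3).add j4).add j5).add j6) j7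
    have l6 := integral_add ((((j1.add j2).add j3).add j4).add j5) j6
    have l5 := integral_add (((j1.add j2).add j3).add j4) j5
    have l4 := integral_add ((j1.add j2).add j3) j4
    have l3 := integral_add (j1.add j2) j3
    have l2 := integral_add j1 j2
    simp only [Pi.add_apply] at l2 l3 l4 l5 l6 l7
    rw [l7, l6, l5, l4, l3, l2]
    simp only [integral_const_mul]
  rw [Finset.sum_congr rfl (fun m _ => key m)]
  simp only [Finset.sum_add_distrib, ← Finset.mul_sum]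
  have hNs : (N : ℝ) = s ^ 2 := hsq.symm
  have hN0 : (0 : ℝ) < N := by exact_mod_cast hN
  have c1 := mul_le_mul_of_nonneg_left b1 hN0.le
  have c2 := mul_le_mul_of_nonneg_left b2 hs0.le
  have c3 := mul_le_mul_of_nonneg_left b3 (sq_nonneg (N : ℝ))
  have c4 := mul_le_mul_of_nonneg_left b4 (mul_nonneg hN0.le hs0.le)
  have c5 := mul_le_mul_of_nonneg_left b5 (mul_nonneg hN0.le hs0.le)
  have c6 := mul_le_mul_of_nonneg_left b6 hN0.le
  have c7 := mul_le_mul_of_nonneg_left b7 hN0.le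
  simp only [Fin.prod_univ_succ, Fin.prod_univ_zero, Matrix.cons_val_zero, Matrix.cons_val_succ,
    if_true, Bool.false_eq_true, if_false, mul_one] at c1 c2 c3 c4 c5 c6 c7
  have hinv : 1 / s ≤ s := (ar8 hs1).1
  have d1 : (N : ℝ) * (K1 * ((N : ℝ) ^ (1 + 1) * (1 / (N : ℝ)) ^ 3) * Z) ≤ K1 * s * Z := by
    have : (N : ℝ) * (K1 * ((N : ℝ) ^ (1 + 1) * (1 / (N : ℝ)) ^ 3) * Z) = K1 * 1 * Z := by
      rw [hNs]
      exact ar1 _ _ _ hs0
    rw [this]
    exact mul_le_mul_of_nonneg_right (mul_le_mul_of_nonneg_left hs1 hK1) hZnn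
  have d2 : s * (K2 * ((N : ℝ) ^ (2 + 1) * ((1 / s) ^ 3 * (1 / s) ^ 3)) * Z) ≤ K2 * s * Z := by
    have : s * (K2 * ((N : ℝ) ^ (2 + 1) * ((1 / s) ^ 3 * (1 / s) ^ 3)) * Z) = K2 * s * Z := by
      rw [hNs]
      exact ar2 _ _ _ hs0
    rw [this]
  have d3 : (N : ℝ) ^ 2 * (K3 * ((N : ℝ) ^ (2 + 1) * ((1 / (N : ℝ)) ^ 3 * (1 / (N : ℝ)) ^ 3)) * Z)
      ≤ K3 * s * Z := by
    have : (N : ℝ) ^ 2 * (K3 * ((N : ℝ) ^ (2 + 1) * ((1 / (N : ℝ)) ^ 3 * (1 / (N : ℝ)) ^ 3)) * Z)
        = K3 * (1 / s * (1 / s)) * Z := by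
      rw [hNs]
      exact ar3 _ _ _ hs0
    rw [this]
    have h11 : 1 / s * (1 / s) ≤ s := (ar8 hs1).2
    exact mul_le_mul_of_nonneg_right (mul_le_mul_of_nonneg_left h11 hK3) hZnn
  have d4 : (N : ℝ) * s * (K4 * ((N : ℝ) ^ (2 + 1) * ((1 / (N : ℝ)) ^ 3 * (1 / s) ^ 3)) * Z)
      ≤ K4 * s * Z := by
    have : (N : ℝ) * s * (K4 * ((N : ℝ) ^ (2 + 1) * ((1 / (N : ℝ)) ^ 3 * (1 / s) ^ 3)) * Z)
        = K4 * 1 * Z := by
      rw [hNs]
      exact ar4 _ _ _ hs0
    rw [this]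
    exact mul_le_mul_of_nonneg_right (mul_le_mul_of_nonneg_left hs1 hK4) hZnn
  have d5 : (N : ℝ) * s * (K5 * ((N : ℝ) ^ (3 + 1) * ((1 / (N : ℝ)) ^ 3
      * ((1 / s) ^ 3 * (1 / s) ^ 3))) * Z) ≤ K5 * s * Z := by
    have : (N : ℝ) * s * (K5 * ((N : ℝ) ^ (3 + 1) * ((1 / (N : ℝ)) ^ 3
      * ((1 / s) ^ 3 * (1 / s) ^ 3))) * Z) = K5 * (1 / s) * Z := by
      rw [hNs]
      exact ar5 _ _ _ hs0
    rw [this]
    exact mul_le_mul_of_nonneg_right (mul_le_mul_of_nonneg_left hinv hK5) hZnn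
  have d6 : (N : ℝ) * (K6 * ((N : ℝ) ^ (3 + 1) * ((1 / s) ^ 3 * ((1 / s) ^ 3 * (1 / s) ^ 3))) * Z)
      ≤ K6 * s * Z := by
    have : (N : ℝ) * (K6 * ((N : ℝ) ^ (3 + 1) * ((1 / s) ^ 3 * ((1 / s) ^ 3 * (1 / s) ^ 3))) * Z)
        = K6 * s * Z := by
      rw [hNs]
      exact ar6 _ _ _ hs0
    rw [this]
  have d7 : (N : ℝ) * (K7 * ((N : ℝ) ^ (4 + 1) * ((1 / s) ^ 3 * ((1 / s) ^ 3
      * ((1 / s) ^ 3 * (1 / s) ^ 3)))) * Z) ≤ K7 * s * Z := by
    have : (N : ℝ) * (K7 * ((N : ℝ) ^ (4 + 1) * ((1 / s) ^ 3 * ((1 / s) ^ 3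
      * ((1 / s) ^ 3 * (1 / s) ^ 3)))) * Z) = K7 * 1 * Z := by
      rw [hNs]
      exact ar7 _ _ _ hs0
    rw [this]
    exact mul_le_mul_of_nonneg_right (mul_le_mul_of_nonneg_left hs1 hK7) hZnn
  have hsZ : 0 ≤ s * Z := by positivity
  have hfin := add_le_add (add_le_add (add_le_add (add_le_add (add_le_add (add_le_add
    (c1.trans d1) (c2.trans d2)) (c3.trans d3)) (c4.trans d4)) (c5.trans d5)) (c6.trans d6))
    (c7.trans d7)
  refine hfin.trans ?_
  have e : (K1 + K2 + K3 + K4 + K5 + K6 + K7 + 1) * s * Z = K1 * s * Z + K2 * s * Z + K3 * s * Z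
      + K4 * s * Z + K5 * s * Z + K6 * s * Z + K7 * s * Z + s * Z := by ring
  rw [e]
  exact le_add_of_nonneg_right hsZ

end Pool.Agent.W665.TWB
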